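import Pool.Agent.Helper91K1.WS.Stm

/-!
# Pieces (E) and (R) from piece (M)
-/

set_option autoImplicit false

namespace Pool.Agent.Helper95.WS

open Finset MeasureTheory Filter Pool.Agent.Helper91K1.WS

/-- the set of the shifts -/
def Sx (k x y : ℕ) (v δ : ℝ) : Set ℝ := {θ : ℝ | |((x:ℝ) + θ) ^ k - ((y:ℝ) + θ) ^ k - v| < δ}

theorem Sx_meas (k x y : ℕ) (v δ : ℝ) : MeasurableSet (Sx k x y v δ) := by
  have h1 : Continuous fun θ : ℝ => |((x:ℝ) + θ) ^ k - ((y:ℝ) + θ) ^ k - v| := by fun_prop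
  exact (isOpen_lt h1 continuous_const).measurableSet

/-- the indicator function -/
noncomputable def ind (S : Set ℝ) (θ : ℝ) : ℝ := S.indicator (fun _ => (1:ℝ)) θ

theorem ind_nonneg (S : Set ℝ) (θ : ℝ) : 0 ≤ ind S θ := by
  unfold ind
  exact Set.indicator_nonneg (fun _ _ => zero_le_one) θ

theorem ind_of_mem {S : Set ℝ} {θ : ℝ} (h : θ ∈ S) : ind S θ = 1 := Set.indicator_of_mem h _

theorem ind_of_notMem {S : Set ℝ} {θ : ℝ} (h : θ ∉ S) : ind S θ = 0 :=
  Set.indicator_of_notMem h _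

theorem ind_int {S : Set ℝ} (hS : MeasurableSet S) :
    Integrable (ind S) (volume.restrict (Set.Ico (0:ℝ) 1)) :=
  (integrable_const (1:ℝ)).indicator hS

/-- the measure of the shifts in `[0, 1)` -/
noncomputable def ms (k x y : ℕ) (v δ : ℝ) : ℝ :=
  (volume {θ : ℝ | θ ∈ Set.Ico (0:ℝ) 1 ∧ |((x:ℝ) + θ) ^ k - ((y:ℝ) + θ) ^ k - v| < δ}).toReal

theorem int_ind (k x y : ℕ) (v δ : ℝ) :
    ∫ θ in Set.Ico (0:ℝ) 1, ind (Sx k x y v δ) θ = ms k x y v δ := by
  unfold ind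
  rw [setIntegral_indicator (Sx_meas k x y v δ), setIntegral_const, smul_eq_mul, mul_one]
  rfl

theorem ms_self (k x : ℕ) (v δ : ℝ) : ms k x x v δ = if |v| < δ then 1 else 0 := by
  unfold ms
  split_ifs with h
  · have : {θ : ℝ | θ ∈ Set.Ico (0:ℝ) 1 ∧ |((x:ℝ) + θ) ^ k - ((x:ℝ) + θ) ^ k - v| < δ}
        = Set.Ico (0:ℝ) 1 := by
      ext θ
      simp [h]
    rw [this]
    simp
  · have : {θ : ℝ | θ ∈ Set.Ico (0:ℝ) 1 ∧ |((x:ℝ) + θ) ^ k - ((x:ℝ) + θ) ^ k - v| < δ}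
        = ∅ := by
      ext θ
      simp only [sub_self, zero_sub, abs_neg, Set.mem_ofPred_eq, Set.mem_empty_iff_false, iff_false]
      exact fun h' => h h'.2
    rw [this]
    simp

/-- the total of the measures over all pairs `x ≠ y` -/
theorem sum_ms (hM : TaskM) (k M H : ℕ) (v δ : ℝ) (hk : 2 ≤ k) (h1 : 1 ≤ M) (h2 : 1 ≤ H)
    (hδ : 0 < δ) : ∑ x ∈ Ico M (M + H), ∑ y ∈ (Ico M (M + H)).erase x, ms k x y v δ ≤
      2 * δ * (1 + Real.log H) / (M:ℝ) ^ (k - 2) :=
  hM k M H v δ hk h1 h2 hδ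

theorem taskE (hM : TaskM) : TaskE := by
  classical
  intro α s a k M H δ hk h1 h2 hδ
  set I := Ico M (M + H) with hI
  have hcI : I.card = H := by simp [hI]
  -- the number of pairs as a sum of indicators
  have e1 : ∀ θ : ℝ, En (s ×ˢ I) (fun p => a p.1 + ((p.2:ℝ) + θ) ^ k) δ
      = ∑ i ∈ s, ∑ j ∈ s, ∑ x ∈ I, ∑ y ∈ I, ind (Sx k x y (a j - a i) δ) θ := by
    intro θ
    unfold En
    rw [Finset.card_filter]
    push_cast
    rw [Finset.sum_product]
    have h3 : ∀ p q : α × ℕ, (if |(a p.1 + ((p.2:ℝ) + θ) ^ k) - (a q.1 + ((q.2:ℝ) + θ) ^ k)| < δ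
        then (1:ℝ) else 0) = ind (Sx k p.2 q.2 (a q.1 - a p.1) δ) θ := by
      intro p q
      have h4 : (a p.1 + ((p.2:ℝ) + θ) ^ k) - (a q.1 + ((q.2:ℝ) + θ) ^ k)
          = ((p.2:ℝ) + θ) ^ k - ((q.2:ℝ) + θ) ^ k - (a q.1 - a p.1) := by ring
      rw [h4]
      split_ifs with h
      · exact (ind_of_mem (S := Sx k p.2 q.2 (a q.1 - a p.1) δ) h).symm
      · exact (ind_of_notMem (S := Sx k p.2 q.2 (a q.1 - a p.1) δ) h).symm
    simp only [h3]
    rw [Finset.sum_product]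
    refine Finset.sum_congr rfl fun i _ => ?_
    rw [Finset.sum_comm, Finset.sum_product]
    refine Finset.sum_congr rfl fun j _ => ?_
    rw [Finset.sum_comm]
  have hint : ∀ i j x y, Integrable (fun θ => ind (Sx k x y (a j - a i) δ) θ)
      (volume.restrict (Set.Ico (0:ℝ) 1)) := fun i j x y => ind_int (Sx_meas _ _ _ _ _)
  have e2 : ∫ θ in Set.Ico (0:ℝ) 1, En (s ×ˢ I) (fun p => a p.1 + ((p.2:ℝ) + θ) ^ k) δ
      = ∑ i ∈ s, ∑ j ∈ s, ∑ x ∈ I, ∑ y ∈ I, ms k x y (a j - a i) δ := by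
    simp only [e1]
    rw [integral_finsetSum _ fun i _ => integrable_finsetSum _ fun j _ =>
      integrable_finsetSum _ fun x _ => integrable_finsetSum _ fun y _ => hint i j x y]
    refine Finset.sum_congr rfl fun i _ => ?_
    rw [integral_finsetSum _ fun j _ =>
      integrable_finsetSum _ fun x _ => integrable_finsetSum _ fun y _ => hint i j x y]
    refine Finset.sum_congr rfl fun j _ => ?_
    rw [integral_finsetSum _ fun x _ => integrable_finsetSum _ fun y _ => hint i j x y]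
    refine Finset.sum_congr rfl fun x _ => ?_
    rw [integral_finsetSum _ fun y _ => hint i j x y]
    exact Finset.sum_congr rfl fun y _ => int_ind _ _ _ _ _
  rw [e2]
  set C : ℝ := 2 * δ * (1 + Real.log H) / (M:ℝ) ^ (k - 2) with hC
  have e3 : ∀ i ∈ s, ∀ j ∈ s, ∑ x ∈ I, ∑ y ∈ I, ms k x y (a j - a i) δ
      ≤ H * (if |a i - a j| < δ then 1 else 0) + C := by
    intro i _ j _
    have h5 : ∀ x ∈ I, ∑ y ∈ I, ms k x y (a j - a i) δ
        = (if |a i - a j| < δ then 1 else 0) + ∑ y ∈ I.erase x, ms k x y (a j - a i) δ := by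
      intro x hx
      rw [← Finset.add_sum_erase _ _ hx, ms_self, abs_sub_comm (a j) (a i)]
    rw [Finset.sum_congr rfl h5, Finset.sum_add_distrib, Finset.sum_const, hcI, nsmul_eq_mul]
    gcongr
    exact sum_ms hM k M H (a j - a i) δ hk h1 h2 hδ
  calc ∑ i ∈ s, ∑ j ∈ s, ∑ x ∈ I, ∑ y ∈ I, ms k x y (a j - a i) δ
      ≤ ∑ i ∈ s, ∑ j ∈ s, (H * (if |a i - a j| < δ then 1 else 0) + C) :=
        Finset.sum_le_sum fun i hi => Finset.sum_le_sum fun j hj => e3 i hi j hj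
    _ = H * En s a δ + C * (s.card : ℝ) ^ 2 := by
        unfold En
        rw [Finset.card_filter]
        push_cast
        rw [Finset.sum_product]
        simp only [Finset.sum_add_distrib, Finset.mul_sum, Finset.sum_const, nsmul_eq_mul]
        ring

theorem floor_pair (u w δ : ℝ) (hδ : 0 < δ) (b b' : ℤ) (h : b + ⌊u / δ⌋ = b' + ⌊w / δ⌋) :
    |u - w - ((b':ℝ) - b) * δ| < δ := by
  have h1 := Int.floor_le (u / δ)
  have h2 := Int.lt_floor_add_one (u / δ)
  have h3 := Int.floor_le (w / δ)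
  have h4 := Int.lt_floor_add_one (w / δ)
  have h5 : (b:ℝ) + (⌊u / δ⌋ : ℝ) = b' + (⌊w / δ⌋ : ℝ) := by exact_mod_cast h
  have h6 : |u / δ - w / δ - ((b':ℝ) - b)| < 1 := by
    rw [abs_lt]
    constructor <;> linarith
  have h7 : u - w - ((b':ℝ) - b) * δ = (u / δ - w / δ - ((b':ℝ) - b)) * δ := by
    field_simp
  rw [h7, abs_mul, abs_of_pos hδ]
  calc _ < 1 * δ := mul_lt_mul_of_pos_right h6 hδ
    _ = δ := one_mul δ

theorem taskR (hM : TaskM) : TaskR := by
  classical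
  intro B V k M H δ hk h1 h2 hδ
  set I := Ico M (M + H) with hI
  have hcI : I.card = H := by simp [hI]
  set C : ℝ := 2 * δ * (1 + Real.log H) / (M:ℝ) ^ (k - 2) with hC
  -- pointwise bound
  have key : ∀ θ : ℝ, (H:ℝ) ^ 2 *
      ((V.filter (fun m => ∀ x ∈ I, m - ⌊((x:ℝ) + θ) ^ k / δ⌋ ∈ B)).card : ℝ) ≤
      H * (B.card : ℝ) + ∑ b ∈ B, ∑ b' ∈ B, ∑ x ∈ I, ∑ y ∈ I.erase x,
        ind (Sx k x y (((b':ℝ) - b) * δ) δ) θ := by
    intro θ
    set r : ℕ → ℤ := fun x => ⌊((x:ℝ) + θ) ^ k / δ⌋ with hr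
    -- number of `m` for a pair
    have h3 : (H:ℝ) ^ 2 * ((V.filter (fun m => ∀ x ∈ I, m - r x ∈ B)).card : ℝ) ≤
        ∑ x ∈ I, ∑ y ∈ I, ((V.filter (fun m => m - r x ∈ B ∧ m - r y ∈ B)).card : ℝ) := by
      have h4 : ∀ x ∈ I, ∀ y ∈ I, ((V.filter (fun m => ∀ x ∈ I, m - r x ∈ B)).card : ℝ) ≤
          ((V.filter (fun m => m - r x ∈ B ∧ m - r y ∈ B)).card : ℝ) := by
        intro x hx y hy
        have : (V.filter (fun m => ∀ x ∈ I, m - r x ∈ B)) ⊆
            (V.filter (fun m => m - r x ∈ B ∧ m - r y ∈ B)) := by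
          intro m hm
          rw [Finset.mem_filter] at hm ⊢
          exact ⟨hm.1, hm.2 x hx, hm.2 y hy⟩
        exact_mod_cast Finset.card_le_card this
      calc (H:ℝ) ^ 2 * ((V.filter (fun m => ∀ x ∈ I, m - r x ∈ B)).card : ℝ)
          = ∑ x ∈ I, ∑ y ∈ I, ((V.filter (fun m => ∀ x ∈ I, m - r x ∈ B)).card : ℝ) := by
            simp only [Finset.sum_const, hcI, nsmul_eq_mul]
            ring
        _ ≤ _ := Finset.sum_le_sum fun x hx => Finset.sum_le_sum fun y hy => h4 x hx y hy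
    -- diagonal
    have h5 : ∀ x, ((V.filter (fun m => m - r x ∈ B ∧ m - r x ∈ B)).card : ℝ) ≤ B.card := by
      intro x
      have : (V.filter (fun m => m - r x ∈ B ∧ m - r x ∈ B)).card ≤ B.card := by
        refine Finset.card_le_card_of_injOn (fun m => m - r x) ?_ ?_
        · intro m hm
          exact (Finset.mem_filter.1 hm).2.1
        · intro m _ m' _ h
          simpa using h
      exact_mod_cast this
    -- off the diagonal
    have h6 : ∀ x y, ((V.filter (fun m => m - r x ∈ B ∧ m - r y ∈ B)).card : ℝ) ≤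
        ∑ b ∈ B, ∑ b' ∈ B, ind (Sx k x y (((b':ℝ) - b) * δ) δ) θ := by
      intro x y
      have h7 : (V.filter (fun m => m - r x ∈ B ∧ m - r y ∈ B)).card ≤
          ((B ×ˢ B).filter (fun z : ℤ × ℤ => z.1 + r x = z.2 + r y)).card := by
        refine Finset.card_le_card_of_injOn (fun m => (m - r x, m - r y)) ?_ ?_
        · intro m hm
          have := (Finset.mem_filter.1 hm).2
          simp only [Finset.coe_filter, Finset.mem_product, Set.mem_ofPred_eq]
          exact ⟨this, by ring⟩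
        · intro m _ m' _ h
          have := congrArg Prod.fst h
          simpa using this
      have h8 : (((B ×ˢ B).filter (fun z : ℤ × ℤ => z.1 + r x = z.2 + r y)).card : ℝ) ≤
          ∑ b ∈ B, ∑ b' ∈ B, ind (Sx k x y (((b':ℝ) - b) * δ) δ) θ := by
        rw [Finset.card_filter]
        push_cast
        rw [Finset.sum_product]
        refine Finset.sum_le_sum fun b _ => Finset.sum_le_sum fun b' _ => ?_
        split_ifs with h
        · have : θ ∈ Sx k x y (((b':ℝ) - b) * δ) δ := floor_pair _ _ δ hδ b b' h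
          exact (ind_of_mem this).ge
        · exact ind_nonneg _ _
      calc ((V.filter (fun m => m - r x ∈ B ∧ m - r y ∈ B)).card : ℝ)
          ≤ (((B ×ˢ B).filter (fun z : ℤ × ℤ => z.1 + r x = z.2 + r y)).card : ℝ) := by
            exact_mod_cast h7
        _ ≤ _ := h8
    refine h3.trans ?_
    have h9 : ∀ x ∈ I, ∑ y ∈ I, ((V.filter (fun m => m - r x ∈ B ∧ m - r y ∈ B)).card : ℝ) ≤
        (B.card : ℝ) + ∑ y ∈ I.erase x, ∑ b ∈ B, ∑ b' ∈ B,
          ind (Sx k x y (((b':ℝ) - b) * δ) δ) θ := by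
      intro x hx
      rw [← Finset.add_sum_erase _ _ hx]
      exact add_le_add (h5 x) (Finset.sum_le_sum fun y _ => h6 x y)
    refine (Finset.sum_le_sum h9).trans (le_of_eq ?_)
    rw [Finset.sum_add_distrib, Finset.sum_const, hcI, nsmul_eq_mul]
    congr 1
    have e1 : ∀ x, ∑ y ∈ I.erase x, ∑ b ∈ B, ∑ b' ∈ B, ind (Sx k x y (((b':ℝ) - b) * δ) δ) θ
        = ∑ b ∈ B, ∑ b' ∈ B, ∑ y ∈ I.erase x, ind (Sx k x y (((b':ℝ) - b) * δ) δ) θ := by
      intro x
      rw [Finset.sum_comm]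
      exact Finset.sum_congr rfl fun b _ => Finset.sum_comm
    simp only [e1]
    rw [Finset.sum_comm]
    exact Finset.sum_congr rfl fun b _ => Finset.sum_comm
  have hint : ∀ (b b' : ℤ) x y, Integrable (fun θ => ind (Sx k x y (((b':ℝ) - b) * δ) δ) θ)
      (volume.restrict (Set.Ico (0:ℝ) 1)) := fun b b' x y => ind_int (Sx_meas _ _ _ _ _)
  have hint2 : Integrable (fun θ => ∑ b ∈ B, ∑ b' ∈ B, ∑ x ∈ I, ∑ y ∈ I.erase x,
      ind (Sx k x y (((b':ℝ) - b) * δ) δ) θ) (volume.restrict (Set.Ico (0:ℝ) 1)) :=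
    integrable_finsetSum _ fun b _ => integrable_finsetSum _ fun b' _ =>
      integrable_finsetSum _ fun x _ => integrable_finsetSum _ fun y _ => hint b b' x y
  have e2 : ∫ θ in Set.Ico (0:ℝ) 1, ∑ b ∈ B, ∑ b' ∈ B, ∑ x ∈ I, ∑ y ∈ I.erase x,
      ind (Sx k x y (((b':ℝ) - b) * δ) δ) θ
      = ∑ b ∈ B, ∑ b' ∈ B, ∑ x ∈ I, ∑ y ∈ I.erase x, ms k x y (((b':ℝ) - b) * δ) δ := by
    rw [integral_finsetSum _ fun b _ => integrable_finsetSum _ fun b' _ =>
      integrable_finsetSum _ fun x _ => integrable_finsetSum _ fun y _ => hint b b' x y]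
    refine Finset.sum_congr rfl fun b _ => ?_
    rw [integral_finsetSum _ fun b' _ =>
      integrable_finsetSum _ fun x _ => integrable_finsetSum _ fun y _ => hint b b' x y]
    refine Finset.sum_congr rfl fun b' _ => ?_
    rw [integral_finsetSum _ fun x _ => integrable_finsetSum _ fun y _ => hint b b' x y]
    refine Finset.sum_congr rfl fun x _ => ?_
    rw [integral_finsetSum _ fun y _ => hint b b' x y]
    exact Finset.sum_congr rfl fun y _ => int_ind _ _ _ _ _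
  rw [← integral_const_mul]
  calc ∫ θ in Set.Ico (0:ℝ) 1, (H:ℝ) ^ 2 *
        ((V.filter (fun m => ∀ x ∈ I, m - ⌊((x:ℝ) + θ) ^ k / δ⌋ ∈ B)).card : ℝ)
      ≤ ∫ θ in Set.Ico (0:ℝ) 1, (H * (B.card : ℝ) + ∑ b ∈ B, ∑ b' ∈ B, ∑ x ∈ I,
          ∑ y ∈ I.erase x, ind (Sx k x y (((b':ℝ) - b) * δ) δ) θ) := by
        refine integral_mono_of_nonneg (Eventually.of_forall fun θ => by positivity)
          ((integrable_const _).add hint2) (Eventually.of_forall fun θ => key θ)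
    _ = H * (B.card : ℝ) + ∑ b ∈ B, ∑ b' ∈ B, ∑ x ∈ I, ∑ y ∈ I.erase x,
          ms k x y (((b':ℝ) - b) * δ) δ := by
        rw [integral_add (integrable_const _) hint2, e2, setIntegral_const]
        simp
    _ ≤ H * (B.card : ℝ) + ∑ b ∈ B, ∑ b' ∈ B, C := by
        gcongr with b _ b' _
        exact sum_ms hM k M H (((b':ℝ) - b) * δ) δ hk h1 h2 hδ
    _ = H * (B.card : ℝ) + C * (B.card : ℝ) ^ 2 := by
        simp only [Finset.sum_const, nsmul_eq_mul]
        ring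

end Pool.Agent.Helper95.WS
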